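import Mathlib

set_option autoImplicit false

namespace Pool.Agent.Results.MP_9d2f5e_lc.IAvsTM

/-- A one-dimensional iterative array over the input alphabet `α`. -/
structure IterativeArray (α : Type) where
  /-- the set of cell states -/
  S : Type
  finS : Finite S
  /-- the quiescent state -/
  q0 : S
  /-- next state of a cell `i ≥ 1` from the states of cells `i - 1`, `i`, `i + 1` -/
  δ : S → S → S → S
  /-- next state of cell `0` from the current input symbol (`none` is the end marker) and
  the states of cells `0`, `1` -/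
  δ0 : Option α → S → S → S
  quiescent : δ q0 q0 q0 = q0
  /-- the accepting set -/
  F : Set S

/-- `A.conf w t i` is the state of cell `i` at time `t` on the input word `w`: at time `0` all
cells are quiescent, at step `t + 1` cell `0` reads the symbol `w[t]`, or the end marker `none`
if the word is used up. -/
def IterativeArray.conf {α : Type} (A : IterativeArray α) (w : List α) : ℕ → ℕ → A.S
  | 0, _ => A.q0
  | t + 1, 0 => A.δ0 w[t]? (A.conf w t 0) (A.conf w t 1)
  | t + 1, i + 1 => A.δ (A.conf w t i) (A.conf w t (i + 1)) (A.conf w t (i + 2))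

/-- Real-time recognition by an iterative array: the state of cell `0` at time `|w| + 1` is
accepting exactly when `w ∈ L`. -/
def IterativeArray.Recognizes {α : Type} (A : IterativeArray α) (L : Set (List α)) : Prop :=
  ∀ w : List α, w ∈ L ↔ A.conf w (w.length + 1) 0 ∈ A.F

/-- The number of pairs of mirror-symmetric positions `i < |w| - 1 - i` of `w` that both carry
the letter `true`. -/
def mirrorPairs (w : List Bool) : ℕ :=
  ((Finset.range w.length).filter (fun i => 2 * i + 1 < w.length ∧
    w[i]? = some true ∧ w[w.length - 1 - i]? = some true)).card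

/-- The language of all binary words with an odd number of such pairs. -/
def mirrorParity : Set (List Bool) := {w | Odd (mirrorPairs w)}

/-! ### The iterative array -/

/-- sum over `K ≤ m`, `2 m < n` of `x m * x (n - m)` -/
def S (x : ℕ → Bool) (n K : ℕ) : ℕ :=
  ∑ m ∈ Finset.Ico K ((n + 1) / 2), (if x m && x (n - m) then 1 else 0)

lemma S_empty (x : ℕ → Bool) (n K : ℕ) (h : n ≤ 2 * K) : S x n K = 0 := by
  unfold S
  rw [Finset.Ico_eq_empty (by omega)]
  simp

lemma S_step (x : ℕ → Bool) (n K : ℕ) :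
    (S x n K).bodd = xor (if 2 * K < n then x K && x (n - K) else false)
      (S x n (K + 1)).bodd := by
  by_cases h : 2 * K < n
  · unfold S
    rw [Finset.sum_eq_sum_Ico_succ_bot (by omega), Nat.bodd_add, if_pos h]
    congr 1
    cases h2 : (x K && x (n - K)) <;> simp
  · rw [S_empty x n K (by omega), S_empty x n (K + 1) (by omega), if_neg h]
    simp

/-- cell states: stage, two stored digits, the travelling digit, the partial parity -/
abbrev Cell := Fin 5 × Bool × Bool × Bool × Bool

/-- next stage from the stage of the left cell and the own stage -/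
def nst (l s : Fin 5) : Fin 5 :=
  ⟨if s.val = 0 then (if l.val = 3 then 1 else 0) else min (s.val + 1) 4, by split_ifs <;> omega⟩

def nst0 (s : Fin 5) : Fin 5 := ⟨min (s.val + 1) 4, by omega⟩

def upd (st : Fin 5) (inc : Bool) (c r : Cell) : Cell :=
  (st,
   if c.1.val = 1 then c.2.2.2.1 else c.2.1,
   if c.1.val = 3 then r.2.2.2.1 else c.2.2.1,
   inc,
   xor r.2.2.2.2 (xor (c.2.1 && c.2.2.2.1) (c.2.2.1 && r.2.2.2.1)))

def arr : IterativeArray Bool where
  S := Cell
  finS := inferInstance
  q0 := (0, false, false, false, false)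
  δ := fun l c r => upd (nst l.1 c.1) l.2.2.2.1 c r
  δ0 := fun a c r => upd (nst0 c.1) (a == some true) c r
  quiescent := by decide
  F := {c | c.2.2.2.2 = true}

def stg (t k : ℕ) : Fin 5 := ⟨min (t - 3 * k) 4, by omega⟩

/-- closed form of the run -/
def cf (x : ℕ → Bool) (t k : ℕ) : Cell :=
  (stg t k,
   if 3 * k + 2 ≤ t then x (2 * k) else false,
   if 3 * k + 4 ≤ t then x (2 * k + 1) else false,
   if k + 1 ≤ t then x (t - k - 1) else false,
   (S x (t + k - 2) (2 * k)).bodd)

lemma cf_zero (x : ℕ → Bool) (k : ℕ) : cf x 0 k = (0, false, false, false, false) := by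
  unfold cf
  rw [S_empty x _ _ (by omega)]
  simp [stg]

lemma upd_cf (x : ℕ → Bool) (t k : ℕ) :
    upd (stg (t + 1) k) (if k ≤ t then x (t - k) else false) (cf x t k) (cf x t (k + 1)) =
      cf x (t + 1) k := by
  unfold upd cf
  refine Prod.ext rfl (Prod.ext ?_ (Prod.ext ?_ (Prod.ext ?_ ?_)))
  · change (if min (t - 3 * k) 4 = 1 then (if k + 1 ≤ t then x (t - k - 1) else false)
      else (if 3 * k + 2 ≤ t then x (2 * k) else false)) =
      (if 3 * k + 2 ≤ t + 1 then x (2 * k) else false)
    split_ifs <;> first | rfl | (exfalso; omega) | (congr 1; omega)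
  · change (if min (t - 3 * k) 4 = 3 then (if k + 1 + 1 ≤ t then x (t - (k + 1) - 1) else false)
      else (if 3 * k + 4 ≤ t then x (2 * k + 1) else false)) =
      (if 3 * k + 4 ≤ t + 1 then x (2 * k + 1) else false)
    split_ifs <;> first | rfl | (exfalso; omega) | (congr 1; omega)
  · simp only
    by_cases h : k ≤ t
    · rw [if_pos h, if_pos (by omega)]
      congr 1
      omega
    · rw [if_neg h, if_neg (by omega)]
  · simp only
    have e1 : t + (k + 1) - 2 = t + 1 + k - 2 := by omega
    rw [e1, S_step x (t + 1 + k - 2) (2 * k), S_step x (t + 1 + k - 2) (2 * k + 1)]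
    have e2 : 2 * (k + 1) = 2 * k + 1 + 1 := by ring
    rw [e2]
    by_cases h1 : 3 * k + 2 ≤ t
    · rw [if_pos h1, if_pos (by omega : k + 1 ≤ t), if_pos (by omega : 2 * (2 * k) < t + 1 + k - 2)]
      have e3 : t + 1 + k - 2 - 2 * k = t - k - 1 := by omega
      rw [e3]
      by_cases h2 : 3 * k + 4 ≤ t
      · rw [if_pos h2, if_pos (by omega : k + 1 + 1 ≤ t),
          if_pos (by omega : 2 * (2 * k + 1) < t + 1 + k - 2)]
        have e4 : t + 1 + k - 2 - (2 * k + 1) = t - (k + 1) - 1 := by omega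
        rw [e4]
        generalize (S x (t + 1 + k - 2) (2 * k + 1 + 1)).bodd = u
        generalize (x (2 * k) && x (t - k - 1)) = v
        generalize (x (2 * k + 1) && x (t - (k + 1) - 1)) = w
        cases u <;> cases v <;> cases w <;> rfl
      · rw [if_neg h2, if_neg (by omega : ¬ 2 * (2 * k + 1) < t + 1 + k - 2)]
        generalize (S x (t + 1 + k - 2) (2 * k + 1 + 1)).bodd = u
        generalize (x (2 * k) && x (t - k - 1)) = v
        cases u <;> cases v <;> simp
    · rw [if_neg h1, if_neg (by omega : ¬ 3 * k + 4 ≤ t),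
        if_neg (by omega : ¬ 2 * (2 * k) < t + 1 + k - 2),
        if_neg (by omega : ¬ 2 * (2 * k + 1) < t + 1 + k - 2)]
      simp

lemma nst_stg (t k : ℕ) : nst (stg t k) (stg t (k + 1)) = stg (t + 1) (k + 1) := by
  unfold nst stg
  apply Fin.ext
  simp only
  split_ifs <;> omega

lemma nst0_stg (t : ℕ) : nst0 (stg t 0) = stg (t + 1) 0 := by
  unfold nst0 stg
  apply Fin.ext
  simp only
  omega

lemma conf_eq (w : List Bool) (t k : ℕ) :
    arr.conf w t k = cf (fun i => w[i]? == some true) t k := by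
  induction t generalizing k with
  | zero => rw [cf_zero]; rfl
  | succ t ih =>
    rw [← upd_cf]
    cases k with
    | zero =>
      rw [IterativeArray.conf, ih 0, ih 1]
      change upd (nst0 (stg t 0)) _ _ _ = _
      rw [nst0_stg]
      simp
    | succ k =>
      rw [IterativeArray.conf, ih k, ih (k + 1), ih (k + 2)]
      change upd (nst (stg t k) (stg t (k + 1))) (if k + 1 ≤ t then _ else false) _ _ = _
      rw [nst_stg]
      congr 2

lemma mirrorPairs_eq (w : List Bool) :
    mirrorPairs w = S (fun i => w[i]? == some true) (w.length - 1) 0 := by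
  unfold mirrorPairs S
  rw [Finset.card_filter]
  simp only [Bool.and_eq_true, beq_iff_eq]
  rw [← Finset.sum_filter, ← Finset.sum_filter]
  apply Finset.sum_congr _ (fun _ _ => rfl)
  ext i
  simp only [Finset.mem_filter, Finset.mem_range, Finset.mem_Ico]
  constructor
  · rintro ⟨h1, h2, h3, h4⟩
    exact ⟨⟨Nat.zero_le _, by omega⟩, h3, h4⟩
  · rintro ⟨⟨_, h1⟩, h3, h4⟩
    exact ⟨by omega, by omega, h3, h4⟩

lemma arr_recognizes : arr.Recognizes mirrorParity := by
  intro w
  rw [conf_eq]
  change Odd (mirrorPairs w) ↔ (S _ (w.length + 1 + 0 - 2) (2 * 0)).bodd = true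
  rw [mirrorPairs_eq]
  have : w.length + 1 + 0 - 2 = w.length - 1 := by omega
  rw [this, Nat.mul_zero, ← Nat.not_even_iff_odd, Nat.even_iff, Nat.mod_two_of_bodd]
  cases (S (fun i => w[i]? == some true) (w.length - 1) 0).bodd <;> simp


/-! ### Real-time multitape Turing machines -/

/-- A move of a work-tape head. -/
inductive Dir where
  | left
  | stay
  | right

/-- The displacement of a move. -/
def Dir.shift : Dir → ℤ
  | .left => -1
  | .stay => 0
  | .right => 1

/-- A deterministic real-time Turing machine with a one-way input and `k` two-way infinite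
one-dimensional work tapes. -/
structure MultitapeTM (α : Type) where
  /-- number of work tapes -/
  k : ℕ
  /-- control states -/
  Q : Type
  finQ : Finite Q
  /-- work-tape symbols -/
  Γ : Type
  finΓ : Finite Γ
  blank : Γ
  start : Q
  /-- from the state, the next input symbol and the scanned work-tape symbols: the new state,
  the symbols written and the head moves -/
  δ : Q → α → (Fin k → Γ) → Q × (Fin k → Γ) × (Fin k → Dir)
  /-- accepting states -/
  F : Set Q

/-- A configuration: state, tape contents, head positions. -/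
structure MultitapeTM.Cfg {α : Type} (M : MultitapeTM α) where
  state : M.Q
  tape : Fin M.k → ℤ → M.Γ
  head : Fin M.k → ℤ

/-- One step, reading the input symbol `a`. -/
def MultitapeTM.step {α : Type} (M : MultitapeTM α) (c : M.Cfg) (a : α) : M.Cfg where
  state := (M.δ c.state a (fun i => c.tape i (c.head i))).1
  tape := fun i => Function.update (c.tape i) (c.head i)
    ((M.δ c.state a (fun i => c.tape i (c.head i))).2.1 i)
  head := fun i => c.head i + ((M.δ c.state a (fun i => c.tape i (c.head i))).2.2 i).shift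

/-- The configuration after reading the word `w` from the blank start configuration. -/
def MultitapeTM.run {α : Type} (M : MultitapeTM α) (w : List α) : M.Cfg :=
  w.foldl M.step ⟨M.start, fun _ _ => M.blank, fun _ => 0⟩

/-- Real-time recognition: after reading the last symbol of `w`, the state is accepting exactly
when `w ∈ L`. -/
def MultitapeTM.Recognizes {α : Type} (M : MultitapeTM α) (L : Set (List α)) : Prop :=
  ∀ w : List α, w ∈ L ↔ (M.run w).state ∈ M.F

/-! ### The lower bound -/

section lower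

variable (M : MultitapeTM Bool)

/-- configuration at time `t` on the infinite input `f` -/
def cfg (f : ℕ → Bool) (t : ℕ) : M.Cfg := M.run ((List.range t).map f)

lemma cfg_succ (f : ℕ → Bool) (t : ℕ) : cfg M f (t + 1) = M.step (cfg M f t) (f t) := by
  unfold cfg MultitapeTM.run
  rw [List.range_succ, List.map_append, List.foldl_append]
  rfl

lemma cfg_congr (f g : ℕ → Bool) (t : ℕ) (h : ∀ u < t, f u = g u) : cfg M f t = cfg M g t := by
  unfold cfg
  congr 1
  apply List.map_congr_left
  intro u hu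
  exact h u (List.mem_range.mp hu)

/-- the symbol read on tape `i` at time `t` -/
def rd (f : ℕ → Bool) (t : ℕ) (i : Fin M.k) : M.Γ := (cfg M f t).tape i ((cfg M f t).head i)

lemma cfg_step_eq (f g : ℕ → Bool) (t : ℕ) (h1 : (cfg M f t).state = (cfg M g t).state)
    (h2 : f t = g t) (h3 : rd M f t = rd M g t) :
    (cfg M f (t + 1)).state = (cfg M g (t + 1)).state ∧
    (∀ i, (M.δ (cfg M f t).state (f t) (rd M f t)).2.1 i =
      (M.δ (cfg M g t).state (g t) (rd M g t)).2.1 i) ∧
    (∀ i, (M.δ (cfg M f t).state (f t) (rd M f t)).2.2 i =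
      (M.δ (cfg M g t).state (g t) (rd M g t)).2.2 i) := by
  refine ⟨?_, ?_, ?_⟩
  · rw [cfg_succ, cfg_succ]
    change (M.δ (cfg M f t).state (f t) (rd M f t)).1 = (M.δ (cfg M g t).state (g t) (rd M g t)).1
    rw [h1, h2, h3]
  · intro i; rw [h1, h2, h3]
  · intro i; rw [h1, h2, h3]

lemma tape_succ (f : ℕ → Bool) (t : ℕ) (i : Fin M.k) :
    (cfg M f (t + 1)).tape i = Function.update ((cfg M f t).tape i) ((cfg M f t).head i)
      ((M.δ (cfg M f t).state (f t) (rd M f t)).2.1 i) := by
  rw [cfg_succ]; rfl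

lemma head_succ (f : ℕ → Bool) (t : ℕ) (i : Fin M.k) :
    (cfg M f (t + 1)).head i = (cfg M f t).head i +
      ((M.δ (cfg M f t).state (f t) (rd M f t)).2.2 i).shift := by
  rw [cfg_succ]; rfl

lemma tape_unvisited (f : ℕ → Bool) (i : Fin M.k) (p : ℤ) (t0 n : ℕ)
    (h : ∀ t', t0 ≤ t' → t' < t0 + n → (cfg M f t').head i ≠ p) :
    (cfg M f (t0 + n)).tape i p = (cfg M f t0).tape i p := by
  induction n with
  | zero => rfl
  | succ n ih =>
    rw [← Nat.add_assoc, tape_succ, Function.update_of_ne, ih]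
    · intro t' h1 h2
      exact h t' h1 (by omega)
    · exact (h (t0 + n) (by omega) (by omega)).symm

/-- `t1` is the time of the previous visit, before time `t2`, of the cell scanned on tape `i`
at time `t2`. -/
def Prev (f : ℕ → Bool) (i : Fin M.k) (t1 t2 : ℕ) : Prop :=
  t1 < t2 ∧ (cfg M f t1).head i = (cfg M f t2).head i ∧
    ∀ t', t1 < t' → t' < t2 → (cfg M f t').head i ≠ (cfg M f t2).head i

lemma Prev.unique {f : ℕ → Bool} {i : Fin M.k} {t1 t1' t2 : ℕ} (h : Prev M f i t1 t2)
    (h' : Prev M f i t1' t2) : t1 = t1' := by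
  obtain ⟨a1, a2, a3⟩ := h
  obtain ⟨b1, b2, b3⟩ := h'
  rcases lt_trichotomy t1 t1' with hlt | heq | hgt
  · exact absurd b2 (a3 t1' hlt b1)
  · exact heq
  · exact absurd a2 (b3 t1 hgt a1)

lemma exists_prev (f : ℕ → Bool) (i : Fin M.k) (s a t : ℕ) (hat : a ≤ t)
    (h1 : ∃ t1, s ≤ t1 ∧ t1 < a ∧ (cfg M f t1).head i = (cfg M f t).head i)
    (h2 : ∀ t', a ≤ t' → t' < t → (cfg M f t').head i ≠ (cfg M f t).head i) :
    ∃ t1, s ≤ t1 ∧ t1 < a ∧ Prev M f i t1 t := by
  classical
  obtain ⟨t1, h3, h4, h5⟩ := h1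
  let P : ℕ → Prop := fun u => s ≤ u ∧ u < a ∧ (cfg M f u).head i = (cfg M f t).head i
  have hP : P t1 := ⟨h3, h4, h5⟩
  have hs := Nat.findGreatest_spec (P := P) (n := a) h4.le hP
  refine ⟨Nat.findGreatest P a, hs.1, hs.2.1, by have := hs.2.1; omega, hs.2.2, ?_⟩
  intro t' h6 h7 h8
  by_cases h9 : t' < a
  · exact Nat.findGreatest_is_greatest h6 h9.le ⟨by have := hs.1; omega, h9, h8⟩
  · exact h2 t' (by omega) h7 h8

open Classical in
/-- the record at time `t` on tape `i`: the symbol read, if the scanned cell was last visited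
between times `s` and `a` -/
noncomputable def rec (f : ℕ → Bool) (s a t : ℕ) (i : Fin M.k) : Option M.Γ :=
  if ∃ t1, s ≤ t1 ∧ t1 < a ∧ Prev M f i t1 t then some (rd M f t i) else none

lemma determinism (f g : ℕ → Bool) (s a b : ℕ) (hsa : s ≤ a)
    (h0 : cfg M f s = cfg M g s)
    (hq : (cfg M f a).state = (cfg M g a).state)
    (hh : (cfg M f a).head = (cfg M g a).head)
    (hfg : ∀ t, a ≤ t → t < b → f t = g t)
    (hR : ∀ t, a ≤ t → t < b → ∀ i, rec M f s a t i = rec M g s a t i) (n : ℕ)
    (hn : a + n ≤ b) :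
    (cfg M f (a + n)).state = (cfg M g (a + n)).state ∧
    (∀ t, a ≤ t → t ≤ a + n → (cfg M f t).head = (cfg M g t).head) ∧
    (∀ i t, a ≤ t → t < a + n → (cfg M f (a + n)).tape i ((cfg M f t).head i) =
      (cfg M g (a + n)).tape i ((cfg M f t).head i)) := by
  induction n with
  | zero =>
    refine ⟨hq, ?_, ?_⟩
    · intro t h1 h2
      have : t = a := by omega
      rw [this]; exact hh
    · intro i t h1 h2
      omega
  | succ n ih =>
    obtain ⟨i1, i2, i3⟩ := ih (by omega)
    have hheadn : (cfg M f (a + n)).head = (cfg M g (a + n)).head := i2 (a + n) (by omega) le_rfl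
    -- the symbols read agree
    have hrd : rd M f (a + n) = rd M g (a + n) := by
      funext i
      unfold rd
      by_cases hA : ∃ t, a ≤ t ∧ t < a + n ∧ (cfg M f t).head i = (cfg M f (a + n)).head i
      · obtain ⟨t, h1, h2, h3⟩ := hA
        have := i3 i t h1 h2
        rw [h3] at this
        rw [this, hheadn]
      · have hB : ∀ t', a ≤ t' → t' < a + n → (cfg M f t').head i ≠ (cfg M f (a + n)).head i :=
          fun t' h1 h2 h3 => hA ⟨t', h1, h2, h3⟩
        have hB' : ∀ t', a ≤ t' → t' < a + n →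
            (cfg M g t').head i ≠ (cfg M g (a + n)).head i := by
          intro t' h1 h2
          rw [← i2 t' h1 h2.le, ← hheadn]
          exact hB t' h1 h2
        have hrec := hR (a + n) (by omega) (by omega) i
        by_cases hE : ∃ t1, s ≤ t1 ∧ t1 < a ∧ (cfg M f t1).head i = (cfg M f (a + n)).head i
        · have hp := exists_prev M f i s a (a + n) (by omega) hE hB
          unfold rec at hrec
          rw [if_pos hp] at hrec
          split_ifs at hrec with h
          exact Option.some.inj hrec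
        · have hnp : ¬ ∃ t1, s ≤ t1 ∧ t1 < a ∧ Prev M f i t1 (a + n) := by
            rintro ⟨t1, h1, h2, h3⟩
            exact hE ⟨t1, h1, h2, h3.2.1⟩
          unfold rec at hrec
          rw [if_neg hnp] at hrec
          have hnp' : ¬ ∃ t1, s ≤ t1 ∧ t1 < a ∧ Prev M g i t1 (a + n) := by
            intro h
            rw [if_pos h] at hrec
            exact absurd hrec (by simp)
          have hE' : ¬ ∃ t1, s ≤ t1 ∧ t1 < a ∧
              (cfg M g t1).head i = (cfg M g (a + n)).head i := by
            intro h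
            exact hnp' (exists_prev M g i s a (a + n) (by omega) h hB')
          have e : s + (a + n - s) = a + n := by omega
          have u1 := tape_unvisited M f i ((cfg M f (a + n)).head i) s (a + n - s) (by
            intro t' h1 h2 h3
            by_cases h4 : t' < a
            · exact hE ⟨t', h1, h4, h3⟩
            · exact hB t' (by omega) (by omega) h3)
          have u2 := tape_unvisited M g i ((cfg M g (a + n)).head i) s (a + n - s) (by
            intro t' h1 h2 h3
            by_cases h4 : t' < a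
            · exact hE' ⟨t', h1, h4, h3⟩
            · exact hB' t' (by omega) (by omega) h3)
          rw [e] at u1 u2
          rw [u1, u2, h0, hheadn]
    obtain ⟨s1, s2, s3⟩ := cfg_step_eq M f g (a + n) i1 (hfg (a + n) (by omega) (by omega)) hrd
    refine ⟨s1, ?_, ?_⟩
    · intro t h1 h2
      by_cases h3 : t ≤ a + n
      · exact i2 t h1 h3
      · have : t = a + n + 1 := by omega
        subst this
        funext i
        rw [head_succ, head_succ, s3 i, hheadn]
    · intro i t h1 h2
      rw [← Nat.add_assoc, tape_succ, tape_succ, s2 i, hheadn]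
      by_cases h3 : (cfg M f t).head i = (cfg M g (a + n)).head i
      · rw [h3, Function.update_self, Function.update_self]
      · rw [Function.update_of_ne h3, Function.update_of_ne h3]
        by_cases h4 : t < a + n
        · exact i3 i t h1 h4
        · have : t = a + n := by omega
          subst this
          exact absurd (congrFun hheadn i) h3

lemma head_disp (f : ℕ → Bool) (i : Fin M.k) (s n : ℕ) :
    -(n : ℤ) ≤ (cfg M f (s + n)).head i - (cfg M f s).head i ∧
      (cfg M f (s + n)).head i - (cfg M f s).head i ≤ n := by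
  induction n with
  | zero => simp
  | succ n ih =>
    rw [← Nat.add_assoc, head_succ]
    generalize ((M.δ (cfg M f (s + n)).state (f (s + n)) (rd M f (s + n))).2.2 i) = d
    cases d <;> simp only [Dir.shift] <;> push_cast <;> constructor <;> linarith [ih.1, ih.2]

end lower

/-! ### The language side -/

lemma S_congr (x y : ℕ → Bool) (n : ℕ) (h : ∀ m ≤ n, x m = y m) : S x n 0 = S y n 0 := by
  unfold S
  apply Finset.sum_congr rfl
  intro m hm
  rw [Finset.mem_Ico] at hm
  rw [h m (by omega), h (n - m) (by omega)]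

lemma mirrorPairs_map (f : ℕ → Bool) (t : ℕ) :
    mirrorPairs ((List.range (t + 1)).map f) = S f t 0 := by
  rw [mirrorPairs_eq]
  simp only [List.length_map, List.length_range, Nat.add_sub_cancel]
  apply S_congr
  intro m hm
  rw [List.getElem?_map, List.getElem?_range (by omega)]
  cases h : f m <;> simp [h]

open Classical in
/-- the word: indicator of the powers of two up to `N`, afterwards the free bits `z` -/
noncomputable def W (N : ℕ) (z : Fin N → Bool) (t : ℕ) : Bool :=
  if t < N then decide (∃ r, t = 2 ^ r) else if h : t - N < N then z ⟨t - N, h⟩ else false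

lemma lang_inj (J j v : ℕ) (f g : ℕ → Bool)
    (hN1 : 2 ^ J ≤ 2 ^ (j + 1) * v) (hN2 : 2 ^ (j + 1) * (v + 1) ≤ 2 ^ (J + 1))
    (hp : ∀ t < 2 ^ J, (f t = true ↔ ∃ r, t = 2 ^ r))
    (hp' : ∀ t < 2 ^ J, f t = g t)
    (hout : ∀ t, t < 2 ^ (j + 1) * v ∨ 2 ^ (j + 1) * v + 2 ^ j ≤ t → f t = g t)
    (hpar : ∀ t, 2 ^ (j + 1) * v + 2 ^ j ≤ t → t < 2 ^ (j + 1) * v + 2 ^ (j + 1) →
      (Odd (S f t 0) ↔ Odd (S g t 0))) :
    ∀ t, f t = g t := by
  have e1 : (2 : ℕ) ^ (j + 1) = 2 * 2 ^ j := by ring
  have e2 : (2 : ℕ) ^ (J + 1) = 2 * 2 ^ J := by ring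
  have hl : 0 < 2 ^ j := by positivity
  set ℓ := 2 ^ j with hℓ
  set N := 2 ^ J with hN
  set s := 2 ^ (j + 1) * v with hs
  have e3 : 2 ^ (j + 1) * (v + 1) = s + 2 * ℓ := by rw [hs, e1]; ring
  rw [e3, e2] at hN2
  -- downward induction
  have key : ∀ d, d ≤ ℓ → ∀ u, ℓ - d ≤ u → u < ℓ → f (s + u) = g (s + u) := by
    intro d
    induction d with
    | zero => intro _ u h1 h2; omega
    | succ d ih =>
      intro hd u h1 h2
      by_cases h3 : ℓ - d ≤ u
      · exact ih (by omega) u h3 h2
      · -- u = ℓ - d - 1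
        have ihu : ∀ u', u < u' → u' < ℓ → f (s + u') = g (s + u') :=
          fun u' h4 h5 => ih (by omega) u' (by omega) h5
        have hpt := hpar (s + ℓ + u) (by omega) (by omega)
        have hmem : ℓ ∈ Finset.Ico 0 ((s + ℓ + u + 1) / 2) := by
          rw [Finset.mem_Ico]
          omega
        have hsub : s + ℓ + u - ℓ = s + u := by omega
        have hfl : f ℓ = true := (hp ℓ (by omega)).2 ⟨j, rfl⟩
        have hgl : g ℓ = true := by rw [← hp' ℓ (by omega)]; exact hfl
        have hrest : ∀ m ∈ (Finset.Ico 0 ((s + ℓ + u + 1) / 2)).erase ℓ,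
            (if f m && f (s + ℓ + u - m) then 1 else 0) =
            (if g m && g (s + ℓ + u - m) then 1 else 0 : ℕ) := by
          intro m hm
          rw [Finset.mem_erase, Finset.mem_Ico] at hm
          obtain ⟨hm1, _, hm2⟩ := hm
          have hmN : m < N := by omega
          rw [← hp' m hmN]
          cases hfm : f m with
          | false => simp
          | true =>
            obtain ⟨r, hr⟩ := (hp m hmN).1 hfm
            have hgoal : f (s + ℓ + u - m) = g (s + ℓ + u - m) := by
              rcases lt_trichotomy r j with h4 | h4 | h4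
              · -- m < ℓ
                have h5 : m < ℓ := by
                  rw [hr, hℓ]
                  exact Nat.pow_lt_pow_right (by norm_num) h4
                by_cases h6 : ℓ ≤ ℓ + u - m
                · exact hout _ (Or.inr (by omega))
                · have h7 : s + ℓ + u - m = s + (ℓ + u - m) := by omega
                  rw [h7]
                  exact ihu _ (by omega) (by omega)
              · exact absurd (by rw [hr, h4]) hm1
              · have h5 : 2 * ℓ ≤ m := by
                  rw [hr, hℓ, ← e1]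
                  exact Nat.pow_le_pow_right (by norm_num) h4
                by_cases h6 : s + ℓ + u - m < s
                · exact hout _ (Or.inl h6)
                · omega
            rw [hgoal]
        have hSf : S f (s + ℓ + u) 0 = (if f (s + u) then 1 else 0) +
            ∑ m ∈ (Finset.Ico 0 ((s + ℓ + u + 1) / 2)).erase ℓ,
              (if f m && f (s + ℓ + u - m) then 1 else 0) := by
          unfold S
          rw [← Finset.add_sum_erase _ _ hmem, hsub, hfl]
          simp
        have hSg : S g (s + ℓ + u) 0 = (if g (s + u) then 1 else 0) +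
            ∑ m ∈ (Finset.Ico 0 ((s + ℓ + u + 1) / 2)).erase ℓ,
              (if f m && f (s + ℓ + u - m) then 1 else 0) := by
          unfold S
          rw [← Finset.add_sum_erase _ _ hmem, hsub, hgl, Finset.sum_congr rfl hrest]
          simp
        rw [hSf, hSg] at hpt
        revert hpt
        generalize (∑ m ∈ (Finset.Ico 0 ((s + ℓ + u + 1) / 2)).erase ℓ,
              (if f m && f (s + ℓ + u - m) then 1 else 0)) = c
        intro hpt
        cases hf : f (s + u) <;> cases hg : g (s + u) <;> simp only [hf, hg] at hpt ⊢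
        · simp only [Bool.false_eq_true, if_false, if_true, zero_add] at hpt
          rw [Nat.odd_iff, Nat.odd_iff] at hpt
          omega
        · simp only [Bool.false_eq_true, if_false, if_true, zero_add] at hpt
          rw [Nat.odd_iff, Nat.odd_iff] at hpt
          omega
  intro t
  by_cases h1 : t < s
  · exact hout t (Or.inl h1)
  · by_cases h2 : s + ℓ ≤ t
    · exact hout t (Or.inr h2)
    · have := key ℓ le_rfl (t - s) (by omega) (by omega)
      have e : s + (t - s) = t := by omega
      rwa [e] at this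

/-! ### Counting -/

open Classical in
/-- number of entries of a record that are not `none` -/
noncomputable def wt {ι Γ : Type} [Fintype ι] (R : ι → Option Γ) : ℕ :=
  (Finset.univ.filter (fun i => R i ≠ none)).card

open Classical in
lemma count_records {ι Γ : Type} [Fintype ι] [DecidableEq ι] [Fintype Γ] (D m : ℕ) (hΓ : 0 < Fintype.card Γ)
    (hD : 0 < D) :
    (Finset.univ.filter (fun R : ι → Option Γ => wt R < m)).card * D ^ Fintype.card ι ≤
      (Fintype.card Γ * D) ^ m * (D + 1) ^ Fintype.card ι := by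
  set n := Fintype.card ι with hn
  set g := Fintype.card Γ with hg
  let φ : Option Γ → ℕ := fun o => if o = none then g * D else 1
  let ψ : Option Γ → ℕ := fun o => if o = none then 1 else g * D
  have hφψ : ∀ o, ψ o * φ o = g * D := by
    intro o
    by_cases h : o = none <;> simp [φ, ψ, h]
  have hψ : ∀ R : ι → Option Γ, ∏ i, ψ (R i) = (g * D) ^ wt R := by
    intro R
    unfold wt
    rw [← Finset.prod_const, Finset.prod_filter]
    apply Finset.prod_congr rfl
    intro i _
    by_cases h : R i = none <;> simp [ψ, h]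
  have hsum : ∑ R : ι → Option Γ, ∏ i, φ (R i) = (g * (D + 1)) ^ n := by
    have h1 := Finset.prod_univ_sum (fun _ : ι => (Finset.univ : Finset (Option Γ)))
      (fun _ o => φ o)
    rw [Fintype.piFinset_univ] at h1
    rw [← h1, Finset.prod_const, Finset.card_univ]
    congr 1
    rw [Fintype.sum_option]
    simp only [φ, if_true, reduceCtorEq, if_false, Finset.sum_const, Finset.card_univ,
      smul_eq_mul, mul_one]
    ring
  have hkey : (Finset.univ.filter (fun R : ι → Option Γ => wt R < m)).card * (g * D) ^ n ≤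
      (g * D) ^ m * (g * (D + 1)) ^ n := by
    rw [← hsum, Finset.mul_sum, ← smul_eq_mul, ← Finset.sum_const]
    calc ∑ _R ∈ Finset.univ.filter (fun R : ι → Option Γ => wt R < m), (g * D) ^ n
        ≤ ∑ R ∈ Finset.univ.filter (fun R : ι → Option Γ => wt R < m),
            (g * D) ^ m * ∏ i, φ (R i) := by
          apply Finset.sum_le_sum
          intro R hR
          rw [Finset.mem_filter] at hR
          have h1 : (g * D) ^ n = (∏ i, ψ (R i)) * ∏ i, φ (R i) := by
            rw [← Finset.prod_mul_distrib, Finset.prod_congr rfl (fun i _ => hφψ (R i)),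
              Finset.prod_const, Finset.card_univ]
          rw [h1, hψ]
          apply Nat.mul_le_mul_right
          exact Nat.pow_le_pow_right (Nat.mul_pos hΓ hD) hR.2.le
      _ ≤ ∑ R : ι → Option Γ, (g * D) ^ m * ∏ i, φ (R i) := by
          apply Finset.sum_le_sum_of_subset
          exact Finset.filter_subset _ _
  have hgn : 0 < g ^ n := pow_pos hΓ n
  apply Nat.le_of_mul_le_mul_right _ hgn
  calc (Finset.univ.filter (fun R : ι → Option Γ => wt R < m)).card * D ^ n * g ^ n
      = (Finset.univ.filter (fun R : ι → Option Γ => wt R < m)).card * (g * D) ^ n := by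
        rw [mul_pow]; ring
    _ ≤ (g * D) ^ m * (g * (D + 1)) ^ n := hkey
    _ = (g * D) ^ m * (D + 1) ^ n * g ^ n := by rw [mul_pow g (D + 1)]; ring

lemma pow_bound (k D : ℕ) (hD : 4 * k ≤ D) (hD0 : 0 < D) : (D + 1) ^ (2 * k) ≤ 2 * D ^ (2 * k) := by
  have hpos : (0 : ℝ) < (D : ℝ) + 1 := by positivity
  have hb := one_add_mul_le_pow (a := -(1 / ((D : ℝ) + 1))) (by
    have : 1 / ((D : ℝ) + 1) ≤ 1 := by
      rw [div_le_one hpos]
      linarith [Nat.cast_nonneg (α := ℝ) D]
    linarith) (2 * k)
  have h1 : (1 : ℝ) + -(1 / ((D : ℝ) + 1)) = D / (D + 1) := by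
    field_simp
    ring
  rw [h1, div_pow] at hb
  have h2 : (1 : ℝ) / 2 ≤ 1 + ((2 * k : ℕ) : ℝ) * -(1 / ((D : ℝ) + 1)) := by
    have h3 : ((2 * k : ℕ) : ℝ) * (1 / ((D : ℝ) + 1)) ≤ 1 / 2 := by
      rw [mul_one_div, div_le_div_iff₀ hpos (by norm_num)]
      have : (4 * k : ℝ) ≤ D := by exact_mod_cast hD
      push_cast
      linarith
    linarith
  have h4 : (1 : ℝ) / 2 ≤ (D : ℝ) ^ (2 * k) / ((D : ℝ) + 1) ^ (2 * k) := h2.trans hb
  rw [div_le_div_iff₀ (by norm_num) (by positivity)] at h4
  have h5 : (((D + 1) ^ (2 * k) : ℕ) : ℝ) ≤ ((2 * D ^ (2 * k) : ℕ) : ℝ) := by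
    push_cast
    linarith
  exact_mod_cast h5

lemma exp_bound (c k : ℕ) : ∃ l0 : ℕ, ∀ l ≥ l0, c * (8 * l + 1) ^ k ≤ 2 ^ l := by
  have h := tendsto_pow_const_div_const_pow_of_one_lt k (r := (2 : ℝ)) (by norm_num)
  have hc : (0 : ℝ) < 1 / ((c : ℝ) * 9 ^ k + 1) := by positivity
  have h2 := (h.eventually (gt_mem_nhds hc))
  rw [Filter.eventually_atTop] at h2
  obtain ⟨l0, hl0⟩ := h2
  refine ⟨l0 + 1, fun l hl => ?_⟩
  have h3 := hl0 l (by omega)
  have h4 : (c : ℝ) * 9 ^ k * (l : ℝ) ^ k ≤ 2 ^ l := by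
    have hp2 : (0 : ℝ) < 2 ^ l := by positivity
    rw [div_lt_iff₀ hp2] at h3
    have h5 : ((c : ℝ) * 9 ^ k + 1) * (l : ℝ) ^ k < 2 ^ l := by
      have h6 : (0 : ℝ) < (c : ℝ) * 9 ^ k + 1 := by positivity
      calc ((c : ℝ) * 9 ^ k + 1) * (l : ℝ) ^ k
          < ((c : ℝ) * 9 ^ k + 1) * (1 / ((c : ℝ) * 9 ^ k + 1) * 2 ^ l) := by
            apply mul_lt_mul_of_pos_left h3 h6
        _ = 2 ^ l := by
            field_simp
    have h7 : (0 : ℝ) ≤ (l : ℝ) ^ k := by positivity
    linarith
  have h8 : ((c * (8 * l + 1) ^ k : ℕ) : ℝ) ≤ ((2 ^ l : ℕ) : ℝ) := by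
    push_cast
    have h9 : (8 * (l : ℝ) + 1) ^ k ≤ (9 * (l : ℝ)) ^ k := by
      apply pow_le_pow_left₀ (by positivity)
      have : (1 : ℝ) ≤ l := by exact_mod_cast (by omega : 1 ≤ l)
      linarith
    rw [mul_pow] at h9
    calc (c : ℝ) * (8 * (l : ℝ) + 1) ^ k ≤ c * (9 ^ k * (l : ℝ) ^ k) := by
          apply mul_le_mul_of_nonneg_left h9 (by positivity)
      _ = c * 9 ^ k * (l : ℝ) ^ k := by ring
      _ ≤ 2 ^ l := h4
  exact_mod_cast h8

/-- the final numerical estimate -/
lemma numeric (k q g : ℕ) : ∃ e j0 : ℕ, e ≤ j0 ∧ 2 ≤ e ∧ ∀ j ≥ j0, ∀ X : ℕ,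
    X * (4 * k + 1) ^ (2 ^ j * k) ≤
      (g * (4 * k + 1)) ^ (2 ^ (j - e)) * (4 * k + 1 + 1) ^ (2 ^ j * k) →
    2 * (q * (2 * 2 ^ j + 1) ^ k * X) ≤ 2 ^ (2 ^ j) := by
  set D := 4 * k + 1 with hD
  obtain ⟨l0, hl0⟩ := exp_bound (2 * q) k
  refine ⟨g * D + 2, g * D + 2 + l0, by omega, by omega, fun j hj X hX => ?_⟩
  have hj2 : 2 ≤ j := by omega
  set l := 2 ^ (j - 2) with hl
  have e1 : 2 ^ j = 4 * l := by
    rw [hl, show (4 : ℕ) = 2 ^ 2 by norm_num, ← pow_add]
    congr 1
    omega
  have hlbig : l0 ≤ l := by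
    calc l0 ≤ j - 2 := by omega
      _ ≤ 2 ^ (j - 2) := Nat.lt_two_pow_self.le
  have hexp := hl0 l hlbig
  -- X is small
  have hDpos : 0 < D ^ (2 ^ j * k) := by positivity
  have hb : (D + 1) ^ (2 ^ j * k) ≤ 2 ^ (2 * l) * D ^ (2 ^ j * k) := by
    have e2 : 2 ^ j * k = 2 * k * (2 * l) := by rw [e1]; ring
    rw [e2, pow_mul (D + 1) (2 * k) (2 * l), pow_mul D (2 * k) (2 * l), ← mul_pow]
    exact Nat.pow_le_pow_left (pow_bound k D (by omega) (by omega)) _
  have hg : (g * D) ^ (2 ^ (j - (g * D + 2))) ≤ 2 ^ l := by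
    have h1 : g * D ≤ 2 ^ (g * D) := Nat.lt_two_pow_self.le
    calc (g * D) ^ (2 ^ (j - (g * D + 2))) ≤ (2 ^ (g * D)) ^ (2 ^ (j - (g * D + 2))) :=
          Nat.pow_le_pow_left h1 _
      _ = 2 ^ (g * D * 2 ^ (j - (g * D + 2))) := by rw [← pow_mul]
      _ ≤ 2 ^ l := by
          apply Nat.pow_le_pow_right (by norm_num)
          calc g * D * 2 ^ (j - (g * D + 2)) ≤ 2 ^ (g * D) * 2 ^ (j - (g * D + 2)) :=
                Nat.mul_le_mul_right _ h1
            _ = l := by
                rw [← pow_add, hl]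
                congr 1
                omega
  have hX2 : X ≤ 2 ^ (3 * l) := by
    apply Nat.le_of_mul_le_mul_right _ hDpos
    calc X * D ^ (2 ^ j * k) ≤ (g * D) ^ (2 ^ (j - (g * D + 2))) * (D + 1) ^ (2 ^ j * k) := hX
      _ ≤ 2 ^ l * (2 ^ (2 * l) * D ^ (2 ^ j * k)) := Nat.mul_le_mul hg hb
      _ = 2 ^ (3 * l) * D ^ (2 ^ j * k) := by
          rw [show 3 * l = l + 2 * l by ring, pow_add]
          ring
  calc 2 * (q * (2 * 2 ^ j + 1) ^ k * X) = (2 * q * (8 * l + 1) ^ k) * X := by
        rw [e1]; ring_nf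
    _ ≤ 2 ^ l * 2 ^ (3 * l) := Nat.mul_le_mul hexp hX2
    _ = 2 ^ (2 ^ j) := by
        rw [e1, ← pow_add]
        congr 1
        ring

/-! ### Few inputs have a short record -/

section main

variable (M : MultitapeTM Bool)

/-- the record of the second half of the dyadic interval number `v` of level `j` -/
noncomputable def recd (N j v : ℕ) (z : Fin N → Bool) : Fin (2 ^ j) × Fin M.k → Option M.Γ :=
  fun p => rec M (W N z) (2 ^ (j + 1) * v) (2 ^ (j + 1) * v + 2 ^ j)
    (2 ^ (j + 1) * v + 2 ^ j + p.1) p.2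

lemma W_high (N : ℕ) (z : Fin N → Bool) (t : Fin N) : W N z (N + t) = z t := by
  unfold W
  have h : N + (t : ℕ) - N < N := by omega
  rw [if_neg (by omega), dif_pos h]
  congr 1
  apply Fin.ext
  simp

lemma W_low (N : ℕ) (z : Fin N → Bool) (t : ℕ) (ht : t < N) :
    W N z t = true ↔ ∃ r, t = 2 ^ r := by
  unfold W
  rw [if_pos ht]
  simp

lemma W_low_eq (N : ℕ) (z z' : Fin N → Bool) (t : ℕ) (ht : t < N) : W N z t = W N z' t := by
  unfold W
  rw [if_pos ht, if_pos ht]

open Classical in
lemma good_card [Fintype M.Q] [Fintype M.Γ] (hM : M.Recognizes mirrorParity) (J j v m : ℕ)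
    (hN1 : 2 ^ J ≤ 2 ^ (j + 1) * v) (hN2 : 2 ^ (j + 1) * (v + 1) ≤ 2 ^ (J + 1)) :
    (Finset.univ.filter (fun z : Fin (2 ^ J) → Bool => wt (recd M (2 ^ J) j v z) < m)).card ≤
      2 ^ (2 ^ J - 2 ^ j) * (Fintype.card M.Q * (2 * 2 ^ j + 1) ^ M.k *
        (Finset.univ.filter
          (fun R : Fin (2 ^ j) × Fin M.k → Option M.Γ => wt R < m)).card) := by
  have e1 : (2 : ℕ) ^ (j + 1) = 2 * 2 ^ j := by ring
  have e2 : (2 : ℕ) ^ (J + 1) = 2 * 2 ^ J := by ring
  have hl : 0 < 2 ^ j := by positivity
  have e3 : 2 ^ (j + 1) * (v + 1) = 2 ^ (j + 1) * v + 2 * 2 ^ j := by rw [e1]; ring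
  have hN2' := hN2
  rw [e3, e2] at hN2'
  set ℓ := 2 ^ j with hℓ
  set N := 2 ^ J with hN
  set s := 2 ^ (j + 1) * v with hs
  let out : (Fin N → Bool) → (Fin (N - ℓ) → Bool) := fun z t =>
    if h : (t : ℕ) < s - N then z ⟨t, by omega⟩ else z ⟨t + ℓ, by omega⟩
  let E : (Fin N → Bool) →
      (Fin (N - ℓ) → Bool) × M.Q × (Fin M.k → ℤ) × (Fin ℓ × Fin M.k → Option M.Γ) := fun z =>
    (out z, (cfg M (W N z) (s + ℓ)).state,
      fun i => (cfg M (W N z) (s + ℓ)).head i - (cfg M (W N z) s).head i, recd M N j v z)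
  let T : Finset ((Fin (N - ℓ) → Bool) × M.Q × (Fin M.k → ℤ) ×
      (Fin ℓ × Fin M.k → Option M.Γ)) :=
    (Finset.univ : Finset (Fin (N - ℓ) → Bool)) ×ˢ ((Finset.univ : Finset M.Q) ×ˢ
      ((Fintype.piFinset (fun _ : Fin M.k => Finset.Icc (-(ℓ : ℤ)) ℓ)) ×ˢ
        (Finset.univ.filter (fun R : Fin ℓ × Fin M.k → Option M.Γ => wt R < m))))
  have hT : T.card = 2 ^ (N - ℓ) * (Fintype.card M.Q * (2 * ℓ + 1) ^ M.k *
        (Finset.univ.filter
          (fun R : Fin ℓ × Fin M.k → Option M.Γ => wt R < m)).card) := by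
    simp only [T, Finset.card_product, Finset.card_univ, Fintype.card_piFinset,
      Finset.prod_const, Int.card_Icc, Fintype.card_fin, Fintype.card_pi, Fintype.card_bool]
    have : ((ℓ : ℤ) + 1 - -(ℓ : ℤ)).toNat = 2 * ℓ + 1 := by omega
    rw [this]
    ring
  rw [← hT]
  apply Finset.card_le_card_of_injOn E
  · intro z hz
    rw [Finset.mem_coe, Finset.mem_filter] at hz
    simp only [T, E, Finset.coe_product, Set.mem_prod, Finset.mem_coe, Finset.mem_univ,
      Fintype.mem_piFinset, Finset.mem_Icc, Finset.mem_filter, true_and]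
    exact ⟨fun i => head_disp M (W N z) i s ℓ, hz.2⟩
  · intro z _ z' _ hE
    simp only [E, Prod.mk.injEq] at hE
    obtain ⟨ho, hq, hh, hr⟩ := hE
    -- the two words agree outside the first half
    have hz : ∀ t : Fin N, (N + (t : ℕ) < s ∨ s + ℓ ≤ N + (t : ℕ)) → z t = z' t := by
      intro t ht
      rcases ht with ht | ht
      · have h1 : (t : ℕ) < N - ℓ := by omega
        have h2 := congrFun ho ⟨t, h1⟩
        simp only [out] at h2
        rw [dif_pos (by omega), dif_pos (by omega)] at h2
        exact h2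
      · have h1 : (t : ℕ) - ℓ < N - ℓ := by omega
        have h2 := congrFun ho ⟨(t : ℕ) - ℓ, h1⟩
        simp only [out] at h2
        rw [dif_neg (by omega), dif_neg (by omega)] at h2
        have h3 : (⟨(t : ℕ) - ℓ + ℓ, by omega⟩ : Fin N) = t := by
          apply Fin.ext
          simp only
          omega
        rw [h3] at h2
        exact h2
    have hW : ∀ t, t < s ∨ s + ℓ ≤ t → W N z t = W N z' t := by
      intro t ht
      by_cases h1 : t < N
      · exact W_low_eq N z z' t h1
      · unfold W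
        rw [if_neg h1, if_neg h1]
        by_cases h2 : t - N < N
        · rw [dif_pos h2, dif_pos h2]
          apply hz
          simp only
          omega
        · rw [dif_neg h2, dif_neg h2]
    have hcs : cfg M (W N z) s = cfg M (W N z') s :=
      cfg_congr M _ _ s (fun u hu => hW u (Or.inl hu))
    have hha : (cfg M (W N z) (s + ℓ)).head = (cfg M (W N z') (s + ℓ)).head := by
      funext i
      have h1 := congrFun hh i
      simp only [hcs] at h1
      linarith
    have hdet := determinism M (W N z) (W N z') s (s + ℓ) (s + ℓ + ℓ) (by omega) hcs hq hha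
      (fun t h1 _ => hW t (Or.inr h1)) (by
        intro t h1 h2 i
        have h3 := congrFun hr (⟨t - (s + ℓ), by omega⟩, i)
        simp only [recd] at h3
        have h4 : 2 ^ (j + 1) * v + 2 ^ j + (t - (s + ℓ)) = t := by omega
        rw [h4] at h3
        exact h3)
    have hall : ∀ t, W N z t = W N z' t := by
      apply lang_inj J j v (W N z) (W N z') hN1 hN2 (fun t ht => W_low N z t ht)
        (fun t ht => W_low_eq N z z' t ht)
      · intro t ht
        exact hW t ht
      · intro t h1 h2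
        obtain ⟨d1, _, _⟩ := hdet (t + 1 - (s + ℓ)) (by omega)
        have h3 : s + ℓ + (t + 1 - (s + ℓ)) = t + 1 := by omega
        rw [h3] at d1
        have h4 := hM ((List.range (t + 1)).map (W N z))
        have h5 := hM ((List.range (t + 1)).map (W N z'))
        change Odd (mirrorPairs _) ↔ (cfg M (W N z) (t + 1)).state ∈ M.F at h4
        change Odd (mirrorPairs _) ↔ (cfg M (W N z') (t + 1)).state ∈ M.F at h5
        rw [mirrorPairs_map] at h4 h5
        rw [h4, h5, d1]
    funext t
    have := hall (N + t)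
    rwa [W_high, W_high] at this

/-! ### The overlap bound -/

open Classical in
/-- indicator that the scanned cell of tape `i` at time `t` was last visited in the other half
of the dyadic interval of level `j` -/
noncomputable def chi (f : ℕ → Bool) (j t : ℕ) (i : Fin M.k) : ℕ :=
  if ∃ t1, Prev M f i t1 t ∧ t1 / 2 ^ (j + 1) = t / 2 ^ (j + 1) ∧ t1 / 2 ^ j ≠ t / 2 ^ j
  then 1 else 0

lemma chi_sum (f : ℕ → Bool) (t : ℕ) (i : Fin M.k) (A : Finset ℕ) :
    ∑ j ∈ A, chi M f j t i ≤ 1 := by
  classical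
  unfold chi
  rw [← Finset.card_filter, Finset.card_le_one]
  intro j1 h1 j2 h2
  rw [Finset.mem_filter] at h1 h2
  obtain ⟨_, t1, p1, a1, b1⟩ := h1
  obtain ⟨_, t2, p2, a2, b2⟩ := h2
  have ht : t1 = t2 := p1.unique M p2
  subst ht
  have aux : ∀ x y : ℕ, x < y → t1 / 2 ^ (x + 1) = t / 2 ^ (x + 1) → t1 / 2 ^ y = t / 2 ^ y := by
    intro x y hxy h
    obtain ⟨d, rfl⟩ := Nat.exists_eq_add_of_lt hxy
    rw [show x + d + 1 = x + 1 + d by ring, pow_add, ← Nat.div_div_eq_div_mul,
      ← Nat.div_div_eq_div_mul, h]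
  rcases lt_trichotomy j1 j2 with h | h | h
  · exact absurd (aux j1 j2 h a1) b2
  · exact h
  · exact absurd (aux j2 j1 h a2) b1

lemma wt_le (N j v : ℕ) (z : Fin N → Bool) :
    wt (recd M N j v z) ≤ ∑ t ∈ Finset.Ico (2 ^ (j + 1) * v) (2 ^ (j + 1) * (v + 1)),
      ∑ i : Fin M.k, chi M (W N z) j t i := by
  classical
  set s := 2 ^ (j + 1) * v with hs
  have e1 : (2 : ℕ) ^ (j + 1) = 2 * 2 ^ j := by ring
  have e3 : 2 ^ (j + 1) * (v + 1) = s + 2 ^ j + 2 ^ j := by rw [hs, e1]; ring
  have h1 : wt (recd M N j v z) ≤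
      ∑ u : Fin (2 ^ j), ∑ i : Fin M.k, chi M (W N z) j (s + 2 ^ j + u) i := by
    unfold wt
    rw [Finset.card_filter, Fintype.sum_prod_type]
    apply Finset.sum_le_sum
    intro u _
    apply Finset.sum_le_sum
    intro i _
    by_cases h : recd M N j v z (u, i) = none
    · rw [if_neg (by simpa using h)]
      exact Nat.zero_le _
    · rw [if_pos h]
      have h2 : ∃ t1, s ≤ t1 ∧ t1 < s + 2 ^ j ∧ Prev M (W N z) i t1 (s + 2 ^ j + u) := by
        by_contra hc
        apply h
        unfold recd rec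
        exact if_neg hc
      obtain ⟨t1, h3, h4, h5⟩ := h2
      have hu := u.2
      unfold chi
      rw [if_pos]
      refine ⟨t1, h5, ?_, ?_⟩
      · have q1 : t1 / 2 ^ (j + 1) = v := by
          rw [Nat.div_eq_iff (by positivity)]
          constructor <;> rw [Nat.mul_comm v] <;> omega
        have q2 : (s + 2 ^ j + u) / 2 ^ (j + 1) = v := by
          rw [Nat.div_eq_iff (by positivity)]
          constructor <;> rw [Nat.mul_comm v] <;> omega
        rw [q1, q2]
      · have hs2 : s = 2 ^ j * (2 * v) := by rw [hs, e1]; ring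
        have q1 : t1 / 2 ^ j = 2 * v := by
          rw [Nat.div_eq_iff (by positivity)]
          constructor <;> rw [Nat.mul_comm (2 * v)] <;> omega
        have q2 : (s + 2 ^ j + u) / 2 ^ j = 2 * v + 1 := by
          rw [Nat.div_eq_iff (by positivity)]
          have : (2 * v + 1) * 2 ^ j = 2 ^ j * (2 * v) + 2 ^ j := by ring
          constructor <;> rw [this] <;> omega
        rw [q1, q2]
        omega
  have h2 : ∑ u : Fin (2 ^ j), ∑ i : Fin M.k, chi M (W N z) j (s + 2 ^ j + u) i =
      ∑ t ∈ Finset.Ico (s + 2 ^ j) (s + 2 ^ j + 2 ^ j), ∑ i : Fin M.k, chi M (W N z) j t i := by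
    rw [Fin.sum_univ_eq_sum_range
      (fun u => ∑ i : Fin M.k, chi M (W N z) j (s + 2 ^ j + u) i) (2 ^ j),
      Finset.sum_Ico_eq_sum_range]
    simp
  rw [h2] at h1
  refine h1.trans ?_
  rw [e3]
  apply Finset.sum_le_sum_of_subset
  apply Finset.Ico_subset_Ico_left
  omega

lemma sum_blocks (G : ℕ → ℕ) (c p q : ℕ) (h : p ≤ q) :
    ∑ v ∈ Finset.Ico p q, ∑ t ∈ Finset.Ico (c * v) (c * (v + 1)), G t =
      ∑ t ∈ Finset.Ico (c * p) (c * q), G t := by
  induction q, h using Nat.le_induction with
  | base => simp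
  | succ q hq ih =>
    rw [Finset.sum_Ico_succ_top hq, ih,
      Finset.sum_Ico_consecutive _ (Nat.mul_le_mul_left c hq) (Nat.mul_le_mul_left c (by omega))]

lemma overlap_bound (J j0 : ℕ) (z : Fin (2 ^ J) → Bool) :
    ∑ j ∈ Finset.Ico j0 J, ∑ v ∈ Finset.Ico (2 ^ (J - j - 1)) (2 ^ (J - j)),
      wt (recd M (2 ^ J) j v z) ≤ 2 ^ J * M.k := by
  calc ∑ j ∈ Finset.Ico j0 J, ∑ v ∈ Finset.Ico (2 ^ (J - j - 1)) (2 ^ (J - j)),
        wt (recd M (2 ^ J) j v z)
      ≤ ∑ j ∈ Finset.Ico j0 J, ∑ t ∈ Finset.Ico (2 ^ J) (2 ^ (J + 1)),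
          ∑ i : Fin M.k, chi M (W (2 ^ J) z) j t i := by
        apply Finset.sum_le_sum
        intro j hj
        rw [Finset.mem_Ico] at hj
        have h1 : ∑ v ∈ Finset.Ico (2 ^ (J - j - 1)) (2 ^ (J - j)),
            wt (recd M (2 ^ J) j v z) ≤
            ∑ v ∈ Finset.Ico (2 ^ (J - j - 1)) (2 ^ (J - j)),
              ∑ t ∈ Finset.Ico (2 ^ (j + 1) * v) (2 ^ (j + 1) * (v + 1)),
                ∑ i : Fin M.k, chi M (W (2 ^ J) z) j t i :=
          Finset.sum_le_sum (fun v _ => wt_le M (2 ^ J) j v z)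
        rw [sum_blocks _ _ _ _ (Nat.pow_le_pow_right (by norm_num) (by omega)), ← pow_add,
          ← pow_add] at h1
        have e1 : j + 1 + (J - j - 1) = J := by omega
        have e2 : j + 1 + (J - j) = J + 1 := by omega
        rw [e1, e2] at h1
        exact h1
    _ = ∑ t ∈ Finset.Ico (2 ^ J) (2 ^ (J + 1)), ∑ i : Fin M.k,
          ∑ j ∈ Finset.Ico j0 J, chi M (W (2 ^ J) z) j t i := by
        rw [Finset.sum_comm]
        apply Finset.sum_congr rfl
        intro t _
        rw [Finset.sum_comm]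
    _ ≤ ∑ t ∈ Finset.Ico (2 ^ J) (2 ^ (J + 1)), ∑ i : Fin M.k, 1 := by
        apply Finset.sum_le_sum
        intro t _
        apply Finset.sum_le_sum
        intro i _
        exact chi_sum M _ t i _
    _ = 2 ^ J * M.k := by
        simp only [Finset.sum_const, Finset.card_univ, Fintype.card_fin, Nat.card_Ico,
          smul_eq_mul, mul_one]
        congr 1
        rw [pow_succ]
        omega

/-! ### The contradiction -/

open Classical in
lemma good_card' [Fintype M.Q] [Fintype M.Γ] (hM : M.Recognizes mirrorParity) (J N : ℕ)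
    (hN : N = 2 ^ J) (j v m : ℕ)
    (hN1 : 2 ^ J ≤ 2 ^ (j + 1) * v) (hN2 : 2 ^ (j + 1) * (v + 1) ≤ 2 ^ (J + 1)) :
    (Finset.univ.filter (fun z : Fin N → Bool => wt (recd M N j v z) < m)).card ≤
      2 ^ (N - 2 ^ j) * (Fintype.card M.Q * (2 * 2 ^ j + 1) ^ M.k *
        (Finset.univ.filter
          (fun R : Fin (2 ^ j) × Fin M.k → Option M.Γ => wt R < m)).card) := by
  subst hN
  exact good_card M hM J j v m hN1 hN2

lemma overlap_bound' (J j0 N : ℕ) (hN : N = 2 ^ J) (z : Fin N → Bool) :
    ∑ j ∈ Finset.Ico j0 J, ∑ v ∈ Finset.Ico (2 ^ (J - j - 1)) (2 ^ (J - j)),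
      wt (recd M N j v z) ≤ N * M.k := by
  subst hN
  exact overlap_bound M J j0 z

lemma no_TM (hM : M.Recognizes mirrorParity) : False := by
  classical
  have := M.finQ
  have := M.finΓ
  let _ : Fintype M.Q := Fintype.ofFinite _
  let _ : Fintype M.Γ := Fintype.ofFinite _
  have hΓ : 0 < Fintype.card M.Γ := Fintype.card_pos_iff.mpr ⟨M.blank⟩
  obtain ⟨e, j0, hej, he2, hnum⟩ := numeric M.k (Fintype.card M.Q) (Fintype.card M.Γ)
  obtain ⟨J, hJ⟩ : ∃ J, J = j0 + (M.k * 2 ^ (e + 2) + 1) := ⟨_, rfl⟩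
  obtain ⟨N, hN⟩ : ∃ N, N = 2 ^ J := ⟨_, rfl⟩
  have hNpos : 0 < N := by rw [hN]; positivity
  -- every node of level at least `j0` has a large average record
  have hnode : ∀ j ∈ Finset.Ico j0 J, ∀ v ∈ Finset.Ico (2 ^ (J - j - 1)) (2 ^ (J - j)),
      2 ^ (N - 1) * 2 ^ (j - e) ≤ ∑ z : Fin N → Bool, wt (recd M N j v z) := by
    intro j hj v hv
    rw [Finset.mem_Ico] at hj hv
    have hn1 : 2 ^ J ≤ 2 ^ (j + 1) * v := by
      calc 2 ^ J = 2 ^ (j + 1) * 2 ^ (J - j - 1) := by
            rw [← pow_add]; congr 1; omega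
        _ ≤ 2 ^ (j + 1) * v := Nat.mul_le_mul_left _ hv.1
    have hn2 : 2 ^ (j + 1) * (v + 1) ≤ 2 ^ (J + 1) := by
      calc 2 ^ (j + 1) * (v + 1) ≤ 2 ^ (j + 1) * 2 ^ (J - j) := Nat.mul_le_mul_left _ hv.2
        _ = 2 ^ (J + 1) := by
            rw [← pow_add]; congr 1; omega
    have hg := good_card' M hM J N hN j v (2 ^ (j - e)) hn1 hn2
    have hc := count_records (ι := Fin (2 ^ j) × Fin M.k) (Γ := M.Γ) (4 * M.k + 1)
      (2 ^ (j - e)) hΓ (by omega)
    rw [Fintype.card_prod, Fintype.card_fin, Fintype.card_fin] at hc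
    have hX := hnum j hj.1 _ hc
    have hlN : 2 ^ j ≤ N := by rw [hN]; exact Nat.pow_le_pow_right (by norm_num) hj.2.le
    have hsmall : 2 * (Finset.univ.filter
        (fun z : Fin N → Bool => wt (recd M N j v z) < 2 ^ (j - e))).card ≤ 2 ^ N := by
      calc 2 * (Finset.univ.filter
            (fun z : Fin N → Bool => wt (recd M N j v z) < 2 ^ (j - e))).card
          ≤ 2 * (2 ^ (N - 2 ^ j) * (Fintype.card M.Q * (2 * 2 ^ j + 1) ^ M.k *
            (Finset.univ.filter
              (fun R : Fin (2 ^ j) × Fin M.k → Option M.Γ => wt R < 2 ^ (j - e))).card)) :=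
            Nat.mul_le_mul_left _ hg
        _ = 2 ^ (N - 2 ^ j) * (2 * (Fintype.card M.Q * (2 * 2 ^ j + 1) ^ M.k *
            (Finset.univ.filter
              (fun R : Fin (2 ^ j) × Fin M.k → Option M.Γ => wt R < 2 ^ (j - e))).card)) := by
            ring
        _ ≤ 2 ^ (N - 2 ^ j) * 2 ^ (2 ^ j) := Nat.mul_le_mul_left _ hX
        _ = 2 ^ N := by
            rw [← pow_add]; congr 1; omega
    have hsplit := Finset.card_filter_add_card_filter_not
      (s := (Finset.univ : Finset (Fin N → Bool)))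
      (fun z : Fin N → Bool => wt (recd M N j v z) < 2 ^ (j - e))
    rw [Finset.card_univ, Fintype.card_pi, Finset.prod_const, Finset.card_univ,
      Fintype.card_fin, Fintype.card_bool] at hsplit
    have h2N : 2 ^ N = 2 * 2 ^ (N - 1) := by
      rw [← pow_succ']
      congr 1
      omega
    have hbig : 2 ^ (N - 1) ≤ (Finset.univ.filter
        (fun z : Fin N → Bool => ¬ wt (recd M N j v z) < 2 ^ (j - e))).card := by
      omega
    calc 2 ^ (N - 1) * 2 ^ (j - e)
        ≤ (Finset.univ.filter
          (fun z : Fin N → Bool => ¬ wt (recd M N j v z) < 2 ^ (j - e))).card * 2 ^ (j - e) :=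
          Nat.mul_le_mul_right _ hbig
      _ = ∑ _z ∈ Finset.univ.filter
          (fun z : Fin N → Bool => ¬ wt (recd M N j v z) < 2 ^ (j - e)), 2 ^ (j - e) := by
          rw [Finset.sum_const, smul_eq_mul]
      _ ≤ ∑ z ∈ Finset.univ.filter
          (fun z : Fin N → Bool => ¬ wt (recd M N j v z) < 2 ^ (j - e)),
            wt (recd M N j v z) := by
          apply Finset.sum_le_sum
          intro z hz
          rw [Finset.mem_filter] at hz
          exact not_lt.mp hz.2
      _ ≤ ∑ z : Fin N → Bool, wt (recd M N j v z) := by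
          apply Finset.sum_le_sum_of_subset
          exact Finset.filter_subset _ _
  -- summing up
  have hlow : (J - j0) * (2 ^ (J - 1 - e) * 2 ^ (N - 1)) ≤
      ∑ j ∈ Finset.Ico j0 J, ∑ v ∈ Finset.Ico (2 ^ (J - j - 1)) (2 ^ (J - j)),
        ∑ z : Fin N → Bool, wt (recd M N j v z) := by
    have h1 : ∀ j ∈ Finset.Ico j0 J, 2 ^ (J - 1 - e) * 2 ^ (N - 1) ≤
        ∑ v ∈ Finset.Ico (2 ^ (J - j - 1)) (2 ^ (J - j)),
          ∑ z : Fin N → Bool, wt (recd M N j v z) := by
      intro j hj
      have hj' := Finset.mem_Ico.mp hj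
      calc 2 ^ (J - 1 - e) * 2 ^ (N - 1)
          = ∑ _v ∈ Finset.Ico (2 ^ (J - j - 1)) (2 ^ (J - j)),
              2 ^ (N - 1) * 2 ^ (j - e) := by
            rw [Finset.sum_const, Nat.card_Ico, smul_eq_mul]
            have h2 : 2 ^ (J - j) = 2 ^ (J - j - 1) + 2 ^ (J - j - 1) := by
              rw [← two_mul, ← pow_succ']
              congr 1
              omega
            rw [h2, Nat.add_sub_cancel]
            have h3 : 2 ^ (J - 1 - e) = 2 ^ (J - j - 1) * 2 ^ (j - e) := by
              rw [← pow_add]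
              congr 1
              omega
            rw [h3]
            ring
        _ ≤ _ := Finset.sum_le_sum (fun v hv => hnode j hj v hv)
    calc (J - j0) * (2 ^ (J - 1 - e) * 2 ^ (N - 1))
        = ∑ _j ∈ Finset.Ico j0 J, 2 ^ (J - 1 - e) * 2 ^ (N - 1) := by
          rw [Finset.sum_const, Nat.card_Ico, smul_eq_mul]
      _ ≤ _ := Finset.sum_le_sum h1
  have hup : ∑ j ∈ Finset.Ico j0 J, ∑ v ∈ Finset.Ico (2 ^ (J - j - 1)) (2 ^ (J - j)),
        ∑ z : Fin N → Bool, wt (recd M N j v z) ≤ 2 ^ N * (N * M.k) := by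
    calc ∑ j ∈ Finset.Ico j0 J, ∑ v ∈ Finset.Ico (2 ^ (J - j - 1)) (2 ^ (J - j)),
          ∑ z : Fin N → Bool, wt (recd M N j v z)
        = ∑ z : Fin N → Bool, ∑ j ∈ Finset.Ico j0 J,
            ∑ v ∈ Finset.Ico (2 ^ (J - j - 1)) (2 ^ (J - j)), wt (recd M N j v z) := by
          rw [Finset.sum_comm]
          apply Finset.sum_congr rfl
          intro j _
          rw [Finset.sum_comm]
      _ ≤ ∑ _z : Fin N → Bool, N * M.k :=
          Finset.sum_le_sum (fun z _ => overlap_bound' M J j0 N hN z)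
      _ = 2 ^ N * (N * M.k) := by
          rw [Finset.sum_const, Finset.card_univ, Fintype.card_pi, Finset.prod_const,
            Finset.card_univ, Fintype.card_fin, Fintype.card_bool, smul_eq_mul]
  have hfin := hlow.trans hup
  have hA : 2 ^ N * (N * M.k) = (M.k * 2 ^ (e + 2)) * (2 ^ (J - 1 - e) * 2 ^ (N - 1)) := by
    have h2N : 2 ^ N = 2 * 2 ^ (N - 1) := by
      rw [← pow_succ']
      congr 1
      omega
    have h3 : 2 * N = 2 ^ (e + 2) * 2 ^ (J - 1 - e) := by
      rw [hN, ← pow_succ', ← pow_add]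
      congr 1
      omega
    calc 2 ^ N * (N * M.k) = M.k * (2 * N) * 2 ^ (N - 1) := by rw [h2N]; ring
      _ = _ := by rw [h3]; ring
  rw [hA] at hfin
  have hpos : 0 < 2 ^ (J - 1 - e) * 2 ^ (N - 1) := by positivity
  have := Nat.le_of_mul_le_mul_right hfin hpos
  omega

end main

/-- There is a language over the binary alphabet that a one-dimensional iterative array
recognizes in real time, while no multitape Turing machine recognizes it in real time. -/
theorem result : ∃ L : Set (List Bool),
    (∃ A : IterativeArray Bool, A.Recognizes L) ∧ ¬ ∃ M : MultitapeTM Bool, M.Recognizes L :=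
  ⟨mirrorParity, ⟨arr, arr_recognizes⟩, fun ⟨M, hM⟩ => no_TM M hM⟩

end Pool.Agent.Results.MP_9d2f5e_lc.IAvsTM
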